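import Pool.Agent.helper12.TZ.Spec

/-!
# Project tz, row CHR: a homomorphism which separates an element of `D` outside of `[D, D]` from `1`
-/

set_option autoImplicit false

namespace Pool.Agent.TZ

open Pool.Agent.helper58.DC Pool.Agent.DI Pool.Agent.GR Pool.Agent.OB

theorem CHR : CHR_stmt := by
  intro G _ _ p _ D hD z hz hzc
  obtain ⟨c, hc⟩ := IsPGroup.iff_card.1 hD
  -- the image in the abelianization
  have ha : (Abelianization.of (⟨z, hz⟩ : D)) ≠ 1 := by
    intro h0
    apply hzc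
    have h1 : (⟨z, hz⟩ : D) ∈ commutator D := by
      rw [← Abelianization.ker_of, MonoidHom.mem_ker]
      exact h0
    rw [← Subgroup.map_subtype_commutator]
    exact ⟨⟨z, hz⟩, h1, rfl⟩
  have : Finite (Abelianization D) := by
    unfold Abelianization
    infer_instance
  obtain ⟨φ, hφ⟩ := CommGroup.exists_apply_ne_one_of_hasEnoughRootsOfUnity (Abelianization D) ℂ ha
  have hroot : ∀ x : D, (φ.comp Abelianization.of) x ∈ rootsOfUnity (p ^ c) ℂ := by
    intro x
    rw [mem_rootsOfUnity, ← map_pow, ← hc, pow_card_eq_one', map_one]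
  have hne : NeZero (p ^ c) := ⟨pow_ne_zero _ (Fact.out (p := p.Prime)).ne_zero⟩
  have hcard : Nat.card (rootsOfUnity (p ^ c) ℂ) = p ^ c := Complex.card_rootsOfUnity (p ^ c)
  have hcyc : IsCyclic (rootsOfUnity (p ^ c) ℂ) := inferInstance
  obtain ⟨e⟩ : Nonempty (rootsOfUnity (p ^ c) ℂ ≃* Multiplicative (ZMod (p ^ c))) := by
    have e := zmodCyclicMulEquiv hcyc
    rw [hcard] at e
    exact ⟨e.symm⟩
  refine ⟨c, (e : rootsOfUnity (p ^ c) ℂ →* Multiplicative (ZMod (p ^ c))).comp
    ((φ.comp Abelianization.of).codRestrict (rootsOfUnity (p ^ c) ℂ) hroot), ?_⟩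
  intro h0
  apply hφ
  have h1 : ((φ.comp Abelianization.of).codRestrict (rootsOfUnity (p ^ c) ℂ) hroot) ⟨z, hz⟩ = 1 := by
    apply e.injective
    rw [map_one]
    exact h0
  exact congrArg Subtype.val h1

end Pool.Agent.TZ
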